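import Pool.Agent.LibPI54.M50
import Pool.Agent.LibPI54.M62

/-!
MP_097e5c, Q1 (companion of the frozen statement `S00669`, with the definitions of the problem file):
every PI ring is a homomorphic image of a PI ring whose additive group is torsion-free.
`Fr ℕ` is the free associative ring `ℤ⟨x_0, x_1, …⟩` without unit; a PI ring is a ring which satisfies
some (not necessarily multilinear) polynomial with at least one coefficient `1` or `-1`.
-/

set_option autoImplicit false

namespace Pool.Agent.Results.MP_097e5c_al.EveryPIRing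

open Pool.PI34.CV

theorem result :
    ∀ (R : Type) [NonUnitalRing R], IsPI R →
      ∃ (S : Type) (_ : NonUnitalRing S), IsPI S ∧
        (∀ (k : ℤ) (s : S), k ≠ 0 → k • s = 0 → s = 0) ∧
        ∃ φ : S →ₙ+* R, Function.Surjective φ := by
  intro R _ hR
  obtain ⟨S, hS, hPI, htf, hφ⟩ := Pool.PI34.Fin669.im_all R (piid_of_isPI hR)
  refine ⟨S, hS, Pool.PI34.Fin669.isPI_of_piid hPI, ?_, hφ⟩
  intro k s hk hks
  refine htf k.natAbs s (Int.natAbs_ne_zero.2 hk) ?_
  rcases Int.natAbs_eq k with h | h
  · rw [h, natCast_zsmul] at hks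
    exact hks
  · rw [h, neg_smul, neg_eq_zero, natCast_zsmul] at hks
    exact hks

end Pool.Agent.Results.MP_097e5c_al.EveryPIRing
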